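import Mathlib

/-!
# Partial DP-colouring from 2-fold covers

An 8-vertex graph `G` with `χ_DP(G) = 5` and `α₂^DP(G) ≤ 3 < 16/5`: the join of a 4-cycle
`0 2 1 3` and the disjoint union of a vertex `4` and a triangle `5 6 7`.
-/

set_option autoImplicit false

namespace Pool.Agent.Results.MP_f6aace_co.PartialDP

/-- A cover `(L, H)` of the graph `G` with `V(H) = W`. -/
structure Cover {V : Type} (G : SimpleGraph V) (W : Type) where
  /-- The cover graph. -/
  H : SimpleGraph W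
  /-- The lists. -/
  L : V → Finset W
  /-- The lists partition `V(H)`. -/
  partition : ∀ w : W, ∃! v : V, w ∈ L v
  /-- Every list induces a complete subgraph. -/
  complete : ∀ v : V, ∀ x ∈ L v, ∀ y ∈ L v, x ≠ y → H.Adj x y
  /-- The edges between the lists of adjacent vertices form a matching. -/
  matching : ∀ u v : V, G.Adj u v → ∀ x ∈ L u, ∀ y ∈ L v, ∀ z ∈ L v,
    H.Adj x y → H.Adj x z → y = z
  /-- No edges between the lists of distinct nonadjacent vertices. -/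
  nonadj : ∀ u v : V, u ≠ v → ¬ G.Adj u v → ∀ x ∈ L u, ∀ y ∈ L v, ¬ H.Adj x y

/-- The cover is `m`-fold. -/
def Cover.IsFold {V W : Type} {G : SimpleGraph V} (c : Cover G W) (m : ℕ) : Prop :=
  ∀ v : V, (c.L v).card = m

/-- Every `m`-fold cover (on a finite vertex set) has an independent set of size `|V(G)|`. -/
def AllColorable {V : Type} [Fintype V] (G : SimpleGraph V) (m : ℕ) : Prop :=
  ∀ (W : Type) [Fintype W] (c : Cover G W), c.IsFold m →
    ∃ I : Finset W, c.H.IsIndepSet I ∧ I.card = Fintype.card V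

/-- The DP-chromatic number: the least `m` such that every `m`-fold cover has a colouring. -/
noncomputable def chiDP {V : Type} [Fintype V] (G : SimpleGraph V) : ℕ :=
  sInf {m : ℕ | AllColorable G m}

/-- `α_t^DP(G)`: the minimum of `α(H)` over all `t`-fold covers `(L, H)` of `G`. -/
noncomputable def alphaDP {V : Type} (t : ℕ) (G : SimpleGraph V) : ℕ :=
  sInf {a : ℕ | ∃ (W : Type) (_ : Fintype W) (c : Cover G W), c.IsFold t ∧ c.H.indepNum = a}

/-! ### Avoiding neighbours -/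

section avoid

variable {W : Type} (adj : W → W → Prop)

theorem exists_avoid [DecidableEq W] (S T : Finset W)
    (h : ∀ t ∈ T, ∀ y ∈ S, ∀ z ∈ S, adj t y → adj t z → y = z) (hc : T.card < S.card) :
    ∃ s ∈ S, ∀ t ∈ T, ¬ adj t s := by
  classical
  by_contra hcon
  push Not at hcon
  choose! f hf1 hf2 using hcon
  have : S.card ≤ T.card := Finset.card_le_card_of_injOn f hf1 (by
    intro x hx y hy hxy
    exact h (f x) (hf1 x hx) x hx y hy (hf2 x hx) (by rw [hxy]; exact hf2 y hy))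
  omega

theorem card_filter_avoid [DecidableEq W] (S F : Finset W) (t : W)
    (h : ∀ y ∈ S, ∀ z ∈ S, adj t y → adj t z → y = z)
    (hF : ∀ s ∈ S, ¬ adj t s → s ∈ F) : S.card ≤ F.card + 1 := by
  classical
  have h1 : (S \ F).card ≤ 1 := by
    rw [Finset.card_le_one]
    intro a ha b hb
    rw [Finset.mem_sdiff] at ha hb
    refine h a ha.1 b hb.1 ?_ ?_
    · by_contra hn
      exact ha.2 (hF a ha.1 hn)
    · by_contra hn
      exact hb.2 (hF b hb.1 hn)
  have h2 : S.card ≤ (S \ F).card + F.card := Finset.card_le_card_sdiff_add_card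
  omega

/-- The wheel with four spokes: rim lists of size at least three, hub list of size at least
two. -/
theorem wheel [DecidableEq W] (R0 R1 R2 R3 U : Finset W) (hsymm : ∀ x y, adj x y → adj y x)
    (h01 : ∀ t ∈ R0, ∀ y ∈ R1, ∀ z ∈ R1, adj t y → adj t z → y = z)
    (h10 : ∀ t ∈ R1, ∀ y ∈ R0, ∀ z ∈ R0, adj t y → adj t z → y = z)
    (h12 : ∀ t ∈ R1, ∀ y ∈ R2, ∀ z ∈ R2, adj t y → adj t z → y = z)
    (h21 : ∀ t ∈ R2, ∀ y ∈ R1, ∀ z ∈ R1, adj t y → adj t z → y = z)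
    (h23 : ∀ t ∈ R2, ∀ y ∈ R3, ∀ z ∈ R3, adj t y → adj t z → y = z)
    (h32 : ∀ t ∈ R3, ∀ y ∈ R2, ∀ z ∈ R2, adj t y → adj t z → y = z)
    (h30 : ∀ t ∈ R3, ∀ y ∈ R0, ∀ z ∈ R0, adj t y → adj t z → y = z)
    (h03 : ∀ t ∈ R0, ∀ y ∈ R3, ∀ z ∈ R3, adj t y → adj t z → y = z)
    (hu0 : ∀ t ∈ U, ∀ y ∈ R0, ∀ z ∈ R0, adj t y → adj t z → y = z)
    (hu1 : ∀ t ∈ U, ∀ y ∈ R1, ∀ z ∈ R1, adj t y → adj t z → y = z)
    (hu2 : ∀ t ∈ U, ∀ y ∈ R2, ∀ z ∈ R2, adj t y → adj t z → y = z)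
    (hu3 : ∀ t ∈ U, ∀ y ∈ R3, ∀ z ∈ R3, adj t y → adj t z → y = z)
    (h0u : ∀ t ∈ R0, ∀ y ∈ U, ∀ z ∈ U, adj t y → adj t z → y = z)
    (h2u : ∀ t ∈ R2, ∀ y ∈ U, ∀ z ∈ U, adj t y → adj t z → y = z)
    (c0 : 3 ≤ R0.card) (c1 : 3 ≤ R1.card) (c2 : 3 ≤ R2.card) (c3 : 3 ≤ R3.card)
    (cu : 2 ≤ U.card) :
    ∃ r0 ∈ R0, ∃ r1 ∈ R1, ∃ r2 ∈ R2, ∃ r3 ∈ R3, ∃ u ∈ U, ¬ adj r0 r1 ∧ ¬ adj r1 r2 ∧
      ¬ adj r2 r3 ∧ ¬ adj r3 r0 ∧ ¬ adj u r0 ∧ ¬ adj u r1 ∧ ¬ adj u r2 ∧ ¬ adj u r3 := by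
  classical
  by_contra hcon
  have key : ∀ r0 ∈ R0, ∀ r1 ∈ R1, ∀ r2 ∈ R2, ∀ r3 ∈ R3, ∀ u ∈ U, ¬ adj r0 r1 → ¬ adj r1 r2 →
      ¬ adj r2 r3 → ¬ adj r3 r0 → ¬ adj u r0 → ¬ adj u r1 → ¬ adj u r2 → ¬ adj u r3 → False :=
    fun r0 a0 r1 a1 r2 a2 r3 a3 u au b0 b1 b2 b3 b4 b5 b6 b7 =>
      hcon ⟨r0, a0, r1, a1, r2, a2, r3, a3, u, au, b0, b1, b2, b3, b4, b5, b6, b7⟩
  obtain ⟨u, u', hu, hu', huu⟩ : ∃ u u', u ∈ U ∧ u' ∈ U ∧ u ≠ u' := by
    obtain ⟨a, ha, b, hb, hab⟩ := Finset.one_lt_card.mp (show 1 < U.card by omega)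
    exact ⟨a, b, ha, hb, hab⟩
  -- the lists left after `u'`
  set S0 := R0.filter fun s => ¬ adj u' s with hS0
  set S1 := R1.filter fun s => ¬ adj u' s with hS1
  set S2 := R2.filter fun s => ¬ adj u' s with hS2
  set S3 := R3.filter fun s => ¬ adj u' s with hS3
  have d0 : 2 ≤ S0.card := by
    have := card_filter_avoid adj R0 S0 u' (hu0 u' hu')
      fun s h h' => Finset.mem_filter.mpr ⟨h, h'⟩
    omega
  have d1 : 2 ≤ S1.card := by
    have := card_filter_avoid adj R1 S1 u' (hu1 u' hu')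
      fun s h h' => Finset.mem_filter.mpr ⟨h, h'⟩
    omega
  have d2 : 2 ≤ S2.card := by
    have := card_filter_avoid adj R2 S2 u' (hu2 u' hu')
      fun s h h' => Finset.mem_filter.mpr ⟨h, h'⟩
    omega
  have d3 : 2 ≤ S3.card := by
    have := card_filter_avoid adj R3 S3 u' (hu3 u' hu')
      fun s h h' => Finset.mem_filter.mpr ⟨h, h'⟩
    omega
  have m0 : ∀ {x}, x ∈ S0 → x ∈ R0 ∧ ¬ adj u' x := fun h => Finset.mem_filter.mp h
  have m1 : ∀ {x}, x ∈ S1 → x ∈ R1 ∧ ¬ adj u' x := fun h => Finset.mem_filter.mp h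
  have m2 : ∀ {x}, x ∈ S2 → x ∈ R2 ∧ ¬ adj u' x := fun h => Finset.mem_filter.mp h
  have m3 : ∀ {x}, x ∈ S3 → x ∈ R3 ∧ ¬ adj u' x := fun h => Finset.mem_filter.mp h
  -- one-step choices
  have step : ∀ (S : Finset W) (t : W), 2 ≤ S.card →
      (∀ y ∈ S, ∀ z ∈ S, adj t y → adj t z → y = z) → ∃ s ∈ S, ¬ adj t s := by
    intro S t hS h
    obtain ⟨s, hs, hs'⟩ := exists_avoid adj S {t} (by simpa using h)
      (by rw [Finset.card_singleton]; omega)
    exact ⟨s, hs, hs' t (Finset.mem_singleton_self t)⟩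
  have A10 : ∀ t ∈ S1, ∃ x ∈ S0, adj t x := by
    intro t ht
    by_contra hno
    push Not at hno
    obtain ⟨r2, k2, l2⟩ := step S2 t d2 fun y hy z hz => h12 t (m1 ht).1 y (m2 hy).1 z (m2 hz).1
    obtain ⟨r3, k3, l3⟩ := step S3 r2 d3 fun y hy z hz => h23 r2 (m2 k2).1 y (m3 hy).1 z (m3 hz).1
    obtain ⟨r0, k0, l0⟩ := step S0 r3 d0 fun y hy z hz => h30 r3 (m3 k3).1 y (m0 hy).1 z (m0 hz).1
    exact key r0 (m0 k0).1 t (m1 ht).1 r2 (m2 k2).1 r3 (m3 k3).1 u' hu'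
      (fun h => hno r0 k0 (hsymm _ _ h)) l2 l3 l0 (m0 k0).2 (m1 ht).2 (m2 k2).2 (m3 k3).2
  have A12 : ∀ t ∈ S1, ∃ x ∈ S2, adj t x := by
    intro t ht
    by_contra hno
    push Not at hno
    obtain ⟨r0, k0, l0⟩ := step S0 t d0 fun y hy z hz => h10 t (m1 ht).1 y (m0 hy).1 z (m0 hz).1
    obtain ⟨r3, k3, l3⟩ := step S3 r0 d3 fun y hy z hz => h03 r0 (m0 k0).1 y (m3 hy).1 z (m3 hz).1
    obtain ⟨r2, k2, l2⟩ := step S2 r3 d2 fun y hy z hz => h32 r3 (m3 k3).1 y (m2 hy).1 z (m2 hz).1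
    exact key r0 (m0 k0).1 t (m1 ht).1 r2 (m2 k2).1 r3 (m3 k3).1 u' hu'
      (fun h => l0 (hsymm _ _ h)) (hno r2 k2) (fun h => l2 (hsymm _ _ h))
      (fun h => l3 (hsymm _ _ h)) (m0 k0).2 (m1 ht).2 (m2 k2).2 (m3 k3).2
  have A30 : ∀ t ∈ S3, ∃ x ∈ S0, adj t x := by
    intro t ht
    by_contra hno
    push Not at hno
    obtain ⟨r2, k2, l2⟩ := step S2 t d2 fun y hy z hz => h32 t (m3 ht).1 y (m2 hy).1 z (m2 hz).1
    obtain ⟨r1, k1, l1⟩ := step S1 r2 d1 fun y hy z hz => h21 r2 (m2 k2).1 y (m1 hy).1 z (m1 hz).1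
    obtain ⟨r0, k0, l0⟩ := step S0 r1 d0 fun y hy z hz => h10 r1 (m1 k1).1 y (m0 hy).1 z (m0 hz).1
    exact key r0 (m0 k0).1 r1 (m1 k1).1 r2 (m2 k2).1 t (m3 ht).1 u' hu'
      (fun h => l0 (hsymm _ _ h)) (fun h => l1 (hsymm _ _ h)) (fun h => l2 (hsymm _ _ h))
      (hno r0 k0) (m0 k0).2 (m1 k1).2 (m2 k2).2 (m3 ht).2
  have A32 : ∀ t ∈ S3, ∃ x ∈ S2, adj t x := by
    intro t ht
    by_contra hno
    push Not at hno
    obtain ⟨r0, k0, l0⟩ := step S0 t d0 fun y hy z hz => h30 t (m3 ht).1 y (m0 hy).1 z (m0 hz).1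
    obtain ⟨r1, k1, l1⟩ := step S1 r0 d1 fun y hy z hz => h01 r0 (m0 k0).1 y (m1 hy).1 z (m1 hz).1
    obtain ⟨r2, k2, l2⟩ := step S2 r1 d2 fun y hy z hz => h12 r1 (m1 k1).1 y (m2 hy).1 z (m2 hz).1
    exact key r0 (m0 k0).1 r1 (m1 k1).1 r2 (m2 k2).1 t (m3 ht).1 u' hu'
      l1 l2 (fun h => hno r2 k2 (hsymm _ _ h)) l0 (m0 k0).2 (m1 k1).2 (m2 k2).2 (m3 ht).2
  -- `u'` meets the lists of `0` and `2`
  have B0 : ∃ x ∈ R0, adj u' x := by
    by_contra hno
    push Not at hno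
    have hS : S0 = R0 := Finset.filter_true_of_mem hno
    obtain ⟨r1, k1⟩ : S1.Nonempty := Finset.card_pos.mp (by omega)
    obtain ⟨r2, k2, l2⟩ := step S2 r1 d2 fun y hy z hz => h12 r1 (m1 k1).1 y (m2 hy).1 z (m2 hz).1
    obtain ⟨r3, k3, l3⟩ := step S3 r2 d3 fun y hy z hz => h23 r2 (m2 k2).1 y (m3 hy).1 z (m3 hz).1
    obtain ⟨r0, k0, l0⟩ := exists_avoid adj S0 {r1, r3} (by
      intro t ht y hy z hz
      rw [Finset.mem_insert, Finset.mem_singleton] at ht
      rcases ht with rfl | rfl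
      · exact h10 _ (m1 k1).1 y (m0 hy).1 z (m0 hz).1
      · exact h30 _ (m3 k3).1 y (m0 hy).1 z (m0 hz).1)
      (lt_of_le_of_lt Finset.card_le_two (by rw [hS]; omega))
    exact key r0 (m0 k0).1 r1 (m1 k1).1 r2 (m2 k2).1 r3 (m3 k3).1 u' hu'
      (fun h => l0 r1 (by simp) (hsymm _ _ h)) l2 l3 (l0 r3 (by simp)) (m0 k0).2 (m1 k1).2
      (m2 k2).2 (m3 k3).2
  have B2 : ∃ x ∈ R2, adj u' x := by
    by_contra hno
    push Not at hno
    have hS : S2 = R2 := Finset.filter_true_of_mem hno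
    obtain ⟨r1, k1⟩ : S1.Nonempty := Finset.card_pos.mp (by omega)
    obtain ⟨r0, k0, l0⟩ := step S0 r1 d0 fun y hy z hz => h10 r1 (m1 k1).1 y (m0 hy).1 z (m0 hz).1
    obtain ⟨r3, k3, l3⟩ := step S3 r0 d3 fun y hy z hz => h03 r0 (m0 k0).1 y (m3 hy).1 z (m3 hz).1
    obtain ⟨r2, k2, l2⟩ := exists_avoid adj S2 {r1, r3} (by
      intro t ht y hy z hz
      rw [Finset.mem_insert, Finset.mem_singleton] at ht
      rcases ht with rfl | rfl
      · exact h12 _ (m1 k1).1 y (m2 hy).1 z (m2 hz).1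
      · exact h32 _ (m3 k3).1 y (m2 hy).1 z (m2 hz).1)
      (lt_of_le_of_lt Finset.card_le_two (by rw [hS]; omega))
    exact key r0 (m0 k0).1 r1 (m1 k1).1 r2 (m2 k2).1 r3 (m3 k3).1 u' hu'
      (fun h => l0 (hsymm _ _ h)) (l2 r1 (by simp)) (fun h => l2 r3 (by simp) (hsymm _ _ h))
      (fun h => l3 (hsymm _ _ h)) (m0 k0).2 (m1 k1).2 (m2 k2).2 (m3 k3).2
  obtain ⟨r0, k0, l0⟩ := B0
  obtain ⟨r2, k2, l2⟩ := B2
  -- now colour with `u`, `r0`, `r2` and the remaining colours of `S1`, `S3`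
  obtain ⟨t1, k1, l1⟩ := step S1 u d1 fun y hy z hz => hu1 u hu y (m1 hy).1 z (m1 hz).1
  obtain ⟨t3, k3, l3⟩ := step S3 u d3 fun y hy z hz => hu3 u hu y (m3 hy).1 z (m3 hz).1
  have n0 : ∀ {t}, (∃ x ∈ S0, adj t x) → (∀ y ∈ R0, ∀ z ∈ R0, adj t y → adj t z → y = z) →
      ¬ adj t r0 := by
    rintro t ⟨x, hx, htx⟩ h hcon
    have := h x (m0 hx).1 r0 k0 htx hcon
    subst this
    exact (m0 hx).2 l0
  have n2 : ∀ {t}, (∃ x ∈ S2, adj t x) → (∀ y ∈ R2, ∀ z ∈ R2, adj t y → adj t z → y = z) →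
      ¬ adj t r2 := by
    rintro t ⟨x, hx, htx⟩ h hcon
    have := h x (m2 hx).1 r2 k2 htx hcon
    subst this
    exact (m2 hx).2 l2
  refine key r0 k0 t1 (m1 k1).1 r2 k2 t3 (m3 k3).1 u hu ?_ ?_ ?_ ?_ ?_ l1 ?_ l3
  · exact fun h => n0 (A10 t1 k1) (h10 t1 (m1 k1).1) (hsymm _ _ h)
  · exact n2 (A12 t1 k1) (h12 t1 (m1 k1).1)
  · exact fun h => n2 (A32 t3 k3) (h32 t3 (m3 k3).1) (hsymm _ _ h)
  · exact n0 (A30 t3 k3) (h30 t3 (m3 k3).1)
  · exact fun h => huu (h0u r0 k0 u hu u' hu' (hsymm _ _ h) (hsymm _ _ l0))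
  · exact fun h => huu (h2u r2 k2 u hu u' hu' (hsymm _ _ h) (hsymm _ _ l2))

end avoid

/-! ### The graph -/

/-- Neighbourhoods of the graph, encoded in binary: nonadjacent pairs are `01`, `23`, `45`, `46`,
`47`. -/
def nbr : Fin 8 → ℕ := ![252, 252, 243, 243, 15, 207, 175, 111]

/-- The graph: the join of the 4-cycle `0 2 1 3` with the disjoint union of the vertex `4` and
the triangle `5 6 7`. -/
def G8 : SimpleGraph (Fin 8) where
  Adj i j := (nbr i).testBit j = true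
  symm := ⟨by decide +kernel⟩
  loopless := ⟨by decide +kernel⟩

instance : DecidableRel G8.Adj := fun i j =>
  inferInstanceAs (Decidable ((nbr i).testBit j = true))

theorem cover_match {V W : Type} {G : SimpleGraph V} (c : Cover G W) {u v : V} (huv : u ≠ v)
    {t y z : W} (ht : t ∈ c.L u) (hy : y ∈ c.L v) (hz : z ∈ c.L v) (h1 : c.H.Adj t y)
    (h2 : c.H.Adj t z) : y = z := by
  by_cases hG : G.Adj u v
  · exact c.matching u v hG t ht y hy z hz h1 h2
  · exact absurd h1 (c.nonadj u v huv hG t ht y hy)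

theorem colorable5 : AllColorable G8 5 := by
  classical
  intro W _ c hc
  -- choose the colour of `7`
  obtain ⟨x7, h7⟩ : (c.L 7).Nonempty := Finset.card_pos.mp (by rw [hc 7]; omega)
  obtain ⟨x6, h6, h67⟩ := exists_avoid c.H.Adj (c.L 6) {x7} (by
    intro t ht y hy z hz h1 h2
    rw [Finset.mem_singleton] at ht
    subst ht
    exact cover_match c (show (7 : Fin 8) ≠ 6 by decide) h7 hy hz h1 h2)
    (by rw [Finset.card_singleton, hc 6]; omega)
  have h67' : ¬ c.H.Adj x7 x6 := h67 x7 (Finset.mem_singleton_self _)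
  -- remaining lists
  set R : Fin 8 → Finset W := fun v =>
    (c.L v).filter fun s => ¬ c.H.Adj x7 s ∧ ¬ c.H.Adj x6 s with hR
  have memR : ∀ {v : Fin 8} {s : W}, s ∈ R v →
      s ∈ c.L v ∧ ¬ c.H.Adj x7 s ∧ ¬ c.H.Adj x6 s := fun h => Finset.mem_filter.mp h
  have cardR : ∀ v : Fin 8, v ≠ 7 → v ≠ 6 → 3 ≤ (R v).card := by
    intro v hv7 hv6
    have a1 := card_filter_avoid c.H.Adj (c.L v) ((c.L v).filter fun s => ¬ c.H.Adj x7 s) x7
      (fun y hy z hz h1 h2 => cover_match c hv7.symm h7 hy hz h1 h2)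
      (fun s h h' => Finset.mem_filter.mpr ⟨h, h'⟩)
    have a2 := card_filter_avoid c.H.Adj ((c.L v).filter fun s => ¬ c.H.Adj x7 s) (R v) x6
      (fun y hy z hz h1 h2 => cover_match c hv6.symm h6 (Finset.mem_filter.mp hy).1
        (Finset.mem_filter.mp hz).1 h1 h2)
      (fun s h h' => Finset.mem_filter.mpr ⟨(Finset.mem_filter.mp h).1,
        (Finset.mem_filter.mp h).2, h'⟩)
    have a3 := hc v
    omega
  have mt : ∀ {u v : Fin 8}, u ≠ v → ∀ t ∈ R u, ∀ y ∈ R v, ∀ z ∈ R v,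
      c.H.Adj t y → c.H.Adj t z → y = z := fun huv t ht y hy z hz h1 h2 =>
    cover_match c huv (memR ht).1 (memR hy).1 (memR hz).1 h1 h2
  obtain ⟨r0, k0, r2, k2, r1, k1, r3, k3, x5, k5, e02, e21, e13, e30, e50, e52, e51, e53⟩ :=
    wheel c.H.Adj (R 0) (R 2) (R 1) (R 3) (R 5) (fun x y h => h.symm)
      (mt (by decide)) (mt (by decide)) (mt (by decide)) (mt (by decide)) (mt (by decide))
      (mt (by decide)) (mt (by decide)) (mt (by decide)) (mt (by decide)) (mt (by decide))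
      (mt (by decide)) (mt (by decide)) (mt (by decide)) (mt (by decide))
      (cardR 0 (by decide) (by decide)) (cardR 2 (by decide) (by decide))
      (cardR 1 (by decide) (by decide)) (cardR 3 (by decide) (by decide))
      (by have := cardR 5 (by decide) (by decide); omega)
  obtain ⟨x4, k4, h4⟩ := exists_avoid c.H.Adj (c.L 4) {r0, r1, r2, r3} (by
    intro t ht y hy z hz h1 h2
    simp only [Finset.mem_insert, Finset.mem_singleton] at ht
    rcases ht with rfl | rfl | rfl | rfl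
    · exact cover_match c (show (0 : Fin 8) ≠ 4 by decide) (memR k0).1 hy hz h1 h2
    · exact cover_match c (show (1 : Fin 8) ≠ 4 by decide) (memR k1).1 hy hz h1 h2
    · exact cover_match c (show (2 : Fin 8) ≠ 4 by decide) (memR k2).1 hy hz h1 h2
    · exact cover_match c (show (3 : Fin 8) ≠ 4 by decide) (memR k3).1 hy hz h1 h2)
    (lt_of_le_of_lt Finset.card_le_four (by rw [hc 4]; omega))
  -- the colouring
  let f : Fin 8 → W := ![r0, r1, r2, r3, x4, x5, x6, x7]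
  have fL : ∀ v, f v ∈ c.L v := by
    intro v
    fin_cases v
    · exact (memR k0).1
    · exact (memR k1).1
    · exact (memR k2).1
    · exact (memR k3).1
    · exact k4
    · exact (memR k5).1
    · exact h6
    · exact h7
  have fna : ∀ u v : Fin 8, u ≠ v → ¬ G8.Adj u v → ¬ c.H.Adj (f u) (f v) := fun u v huv h =>
    c.nonadj u v huv h _ (fL u) _ (fL v)
  have g : ∀ u v : Fin 8, u < v → ¬ c.H.Adj (f u) (f v) := by
    intro u v huv
    by_cases hG : G8.Adj u v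
    · have e4 : ∀ t ∈ ({r0, r1, r2, r3} : Finset W), ¬ c.H.Adj t x4 := h4
      fin_cases u <;> fin_cases v <;> first
        | exact absurd huv (by decide)
        | exact absurd hG (by decide)
        | exact e02
        | exact e13
        | exact fun h => e21 h.symm
        | exact fun h => e30 h.symm
        | exact e4 _ (by simp [f])
        | exact fun h => e50 h.symm
        | exact fun h => e51 h.symm
        | exact fun h => e52 h.symm
        | exact fun h => e53 h.symm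
        | exact fun h => (memR k0).2.1 h.symm
        | exact fun h => (memR k0).2.2 h.symm
        | exact fun h => (memR k1).2.1 h.symm
        | exact fun h => (memR k1).2.2 h.symm
        | exact fun h => (memR k2).2.1 h.symm
        | exact fun h => (memR k2).2.2 h.symm
        | exact fun h => (memR k3).2.1 h.symm
        | exact fun h => (memR k3).2.2 h.symm
        | exact fun h => (memR k5).2.1 h.symm
        | exact fun h => (memR k5).2.2 h.symm
        | exact fun h => h67' h.symm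
    · exact fna u v (ne_of_lt huv) hG
  have finj : Function.Injective f := by
    intro u v huv
    obtain ⟨w, _, hw⟩ := c.partition (f u)
    have h1 := hw u (fL u)
    have h2 := hw v (by rw [huv]; exact fL v)
    rw [h1, h2]
  refine ⟨Finset.univ.image f, ?_, ?_⟩
  · intro a ha b hb hab
    rw [Finset.coe_image, Set.mem_image] at ha hb
    obtain ⟨u, _, rfl⟩ := ha
    obtain ⟨v, _, rfl⟩ := hb
    have huv : u ≠ v := fun h => hab (by rw [h])
    rcases lt_or_gt_of_ne huv with h | h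
    · exact g u v h
    · exact fun h' => g v u h h'.symm
  · rw [Finset.card_image_of_injective _ finj, Finset.card_univ]

/-! ### The lower bound for `χ_DP` -/

/-- The product cover: `m` straight copies. -/
def prodCover (m : ℕ) : Cover G8 (Fin 8 × Fin m) where
  H :=
    { Adj := fun p q => (p.1 = q.1 ∧ p.2 ≠ q.2) ∨ (G8.Adj p.1 q.1 ∧ p.2 = q.2)
      symm := ⟨fun p q h => h.elim (fun h => Or.inl ⟨h.1.symm, h.2.symm⟩)
        (fun h => Or.inr ⟨h.1.symm, h.2.symm⟩)⟩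
      loopless := ⟨fun p h => h.elim (fun h => h.2 rfl) (fun h => G8.loopless.irrefl _ h.1)⟩ }
  L v := Finset.univ.filter fun p => p.1 = v
  partition w := ⟨w.1, by simp, fun v hv => by simpa using (Finset.mem_filter.mp hv).2.symm⟩
  complete v x hx y hy hxy := by
    rw [Finset.mem_filter] at hx hy
    refine Or.inl ⟨hx.2.trans hy.2.symm, fun h => hxy (Prod.ext (hx.2.trans hy.2.symm) h)⟩
  matching u v huv x hx y hy z hz hxy hxz := by
    rw [Finset.mem_filter] at hx hy hz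
    have hne : u ≠ v := huv.ne
    rcases hxy with h | h
    · exact absurd (hx.2.symm.trans (h.1.trans hy.2)) hne
    · rcases hxz with h' | h'
      · exact absurd (hx.2.symm.trans (h'.1.trans hz.2)) hne
      · exact Prod.ext (hy.2.trans hz.2.symm) (h.2.symm.trans h'.2)
  nonadj u v huv hG x hx y hy hxy := by
    rw [Finset.mem_filter] at hx hy
    rcases hxy with h | h
    · exact huv (hx.2.symm.trans (h.1.trans hy.2))
    · exact hG (by rw [← hx.2, ← hy.2]; exact h.1)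

theorem five_le {m : ℕ} (h : AllColorable G8 m) : 5 ≤ m := by
  classical
  obtain ⟨I, hI, hcard⟩ := h (Fin 8 × Fin m) (prodCover m) (by
    intro v
    have : (Finset.univ.filter fun p : Fin 8 × Fin m => p.1 = v) =
        Finset.univ.image fun i : Fin m => (v, i) := by
      ext p
      simp only [Finset.mem_filter, Finset.mem_univ, true_and, Finset.mem_image]
      constructor
      · intro hp
        exact ⟨p.2, by rw [← hp]⟩
      · rintro ⟨i, rfl⟩
        rfl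
    change (Finset.univ.filter fun p : Fin 8 × Fin m => p.1 = v).card = m
    rw [this, Finset.card_image_of_injective _ (fun a b hab => (Prod.mk.inj hab).2),
      Finset.card_univ, Fintype.card_fin])
  have hinj : Set.InjOn Prod.fst (I : Set (Fin 8 × Fin m)) := by
    intro x hx y hy hxy
    by_contra hne
    exact hI hx hy hne (Or.inl ⟨hxy, fun h => hne (Prod.ext hxy h)⟩)
  have himg : I.image Prod.fst = Finset.univ := by
    apply Finset.eq_univ_of_card
    rw [Finset.card_image_of_injOn hinj, hcard]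
  have hex : ∀ v : Fin 8, ∃ i : Fin m, (v, i) ∈ I := by
    intro v
    have hv : v ∈ I.image Prod.fst := by rw [himg]; exact Finset.mem_univ v
    obtain ⟨p, hp, hpv⟩ := Finset.mem_image.mp hv
    exact ⟨p.2, by rw [← hpv]; exact hp⟩
  choose f hf using hex
  let k : Fin 5 → Fin 8 := ![0, 2, 5, 6, 7]
  have hk : ∀ a b : Fin 5, a ≠ b → G8.Adj (k a) (k b) := by decide +kernel
  have hfi : Function.Injective fun a => f (k a) := by
    intro a b hab
    by_contra hne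
    have hadj := hk a b hne
    refine hI (hf (k a)) (hf (k b)) ?_ (Or.inr ⟨hadj, hab⟩)
    intro h
    exact hadj.ne (Prod.mk.inj h).1
  have := Fintype.card_le_of_injective _ hfi
  rwa [Fintype.card_fin, Fintype.card_fin] at this

theorem chi_eq : chiDP G8 = 5 := by
  have h5 : 5 ∈ {m : ℕ | AllColorable G8 m} := colorable5
  exact le_antisymm (Nat.sInf_le h5) (five_le (Nat.sInf_mem ⟨5, h5⟩))

/-! ### A 2-fold cover with independence number 3 -/

/-- Neighbourhoods of the cover graph on 16 vertices, encoded in binary. The list of `v` is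
`{2v, 2v+1}`. -/
def mH : Fin 16 → ℕ := ![43682, 21841, 43368, 22164, 21802, 43541, 43398, 22089, 598, 425, 22682, 42085, 25754, 39013, 38042, 26725]

/-- The cover graph on 16 vertices. -/
def H2 : SimpleGraph (Fin 16) where
  Adj i j := (mH i).testBit j = true
  symm := ⟨by decide +kernel⟩
  loopless := ⟨by decide +kernel⟩

instance : DecidableRel H2.Adj := fun i j =>
  inferInstanceAs (Decidable ((mH i).testBit j = true))

/-- The lists `{2v, 2v+1}`. -/
def L2 : Fin 8 → Finset (Fin 16) :=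
  ![{0, 1}, {2, 3}, {4, 5}, {6, 7}, {8, 9}, {10, 11}, {12, 13}, {14, 15}]

theorem cover2_partition : ∀ w : Fin 16, ∃ v : Fin 8, w ∈ L2 v ∧ ∀ u, w ∈ L2 u → u = v := by
  decide +kernel

theorem cover2_complete : ∀ v : Fin 8, ∀ x ∈ L2 v, ∀ y ∈ L2 v, x ≠ y → H2.Adj x y := by
  decide +kernel

theorem cover2_card_one : ∀ u v : Fin 8, u ≠ v → ∀ x ∈ L2 u,
    ((L2 v).filter fun y => H2.Adj x y).card ≤ 1 := by
  decide +kernel

theorem cover2_matching (u v : Fin 8) (h : G8.Adj u v) (x : Fin 16) (hx : x ∈ L2 u) (y : Fin 16)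
    (hy : y ∈ L2 v) (z : Fin 16) (hz : z ∈ L2 v) (hxy : H2.Adj x y) (hxz : H2.Adj x z) :
    y = z :=
  Finset.card_le_one.mp (cover2_card_one u v h.ne x hx) y (Finset.mem_filter.mpr ⟨hy, hxy⟩) z
    (Finset.mem_filter.mpr ⟨hz, hxz⟩)

theorem cover2_nonadj : ∀ u v : Fin 8, u ≠ v → ¬ G8.Adj u v → ∀ x ∈ L2 u, ∀ y ∈ L2 v,
    ¬ H2.Adj x y := by
  decide +kernel

/-- The 2-fold cover. -/
def cover2 : Cover G8 (Fin 16) where
  H := H2
  L := L2
  partition w := by
    obtain ⟨v, hv, h⟩ := cover2_partition w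
    exact ⟨v, hv, h⟩
  complete := cover2_complete
  matching := cover2_matching
  nonadj := cover2_nonadj

theorem no_four : ∀ a b : Fin 16, a < b → ¬ H2.Adj a b → ∀ c, b < c → ¬ H2.Adj a c →
    ¬ H2.Adj b c → ∀ d, c < d → ¬ H2.Adj a d → ¬ H2.Adj b d → H2.Adj c d := by
  decide +kernel

theorem indep_le : H2.indepNum ≤ 3 := by
  by_contra hlt
  obtain ⟨s, hs⟩ := H2.exists_isNIndepSet_indepNum
  have hc : 4 ≤ s.card := by rw [hs.card_eq]; omega
  have hmem : ∀ i, s.orderEmbOfFin rfl i ∈ s := fun i => Finset.orderEmbOfFin_mem s rfl i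
  have hlt' : ∀ i j : Fin s.card, i < j → s.orderEmbOfFin rfl i < s.orderEmbOfFin rfl j :=
    fun i j h => (s.orderEmbOfFin rfl).strictMono h
  have hna : ∀ i j : Fin s.card, i < j →
      ¬ H2.Adj (s.orderEmbOfFin rfl i) (s.orderEmbOfFin rfl j) := fun i j h =>
    hs.isIndepSet (hmem i) (hmem j) (ne_of_lt (hlt' i j h))
  have l01 : (⟨0, by omega⟩ : Fin s.card) < ⟨1, by omega⟩ := by simp
  have l02 : (⟨0, by omega⟩ : Fin s.card) < ⟨2, by omega⟩ := by simp
  have l03 : (⟨0, by omega⟩ : Fin s.card) < ⟨3, by omega⟩ := by simp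
  have l12 : (⟨1, by omega⟩ : Fin s.card) < ⟨2, by omega⟩ := by simp
  have l13 : (⟨1, by omega⟩ : Fin s.card) < ⟨3, by omega⟩ := by simp
  have l23 : (⟨2, by omega⟩ : Fin s.card) < ⟨3, by omega⟩ := by simp
  exact hna _ _ l23 (no_four _ _ (hlt' _ _ l01) (hna _ _ l01) _ (hlt' _ _ l12) (hna _ _ l02)
    (hna _ _ l12) _ (hlt' _ _ l23) (hna _ _ l03) (hna _ _ l13))

theorem cover2_card : ∀ v : Fin 8, (L2 v).card = 2 := by
  decide +kernel

theorem alpha_le : alphaDP 2 G8 ≤ 3 := by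
  have h : alphaDP 2 G8 ≤ H2.indepNum := Nat.sInf_le
    ⟨Fin 16, inferInstance, cover2, cover2_card, rfl⟩
  exact h.trans indep_le

/-- There is a graph `G` (on 8 vertices) with `χ_DP(G) = 5 > 3` and
`α₂^DP(G) ≤ 3 < 16/5 = 2|V(G)|/χ_DP(G)`. -/
theorem result : ∃ G : SimpleGraph (Fin 8), chiDP G = 5 ∧ alphaDP 2 G ≤ 3 ∧ 3 < chiDP G ∧
    (alphaDP 2 G : ℚ) < 2 * (Fintype.card (Fin 8) : ℚ) / (chiDP G : ℚ) := by
  refine ⟨G8, chi_eq, alpha_le, by rw [chi_eq]; omega, ?_⟩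
  rw [chi_eq, Fintype.card_fin]
  have h : (alphaDP 2 G8 : ℚ) ≤ 3 := by exact_mod_cast alpha_le
  refine lt_of_le_of_lt h ?_
  norm_num

end Pool.Agent.Results.MP_f6aace_co.PartialDP
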